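import Pool.Agent.helper60.XP.SpecE

/-!
# Project xp (MP_af9036_an): GRO, rotations make the set of poles finite (copy of `V3.GRO`)
-/

set_option autoImplicit false

open Complex Metric Set Filter Topology MeasureTheory
open V3 (En ZL)

noncomputable section

namespace XPE

theorem GRO (hG : V3.GSF_stmt) : GRO_stmt := by
  rintro P A g B v q θ hL ⟨p, hp, hA⟩
  obtain ⟨s, hs, hsep⟩ := hL.sep
  have hA' : 0 < ‖A p - 1‖ := norm_pos_iff.mpr (sub_ne_zero.mpr hA)
  refine hG P s (2 * ‖p‖ / ‖A p - 1‖) hs hsep fun p' hp' => ?_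
  rw [le_div_iff₀ hA']
  have h1 : p' * (A p - 1) = p * (A p' - 1) := by
    linear_combination hL.com p hp p' hp'
  have h2 : ‖A p' - 1‖ ≤ 2 := by
    have := norm_sub_le (A p') 1
    rw [hL.A1 p' hp', norm_one] at this
    linarith
  calc ‖p'‖ * ‖A p - 1‖ = ‖p‖ * ‖A p' - 1‖ := by rw [← norm_mul, h1, norm_mul]
    _ ≤ ‖p‖ * 2 := mul_le_mul_of_nonneg_left h2 (norm_nonneg _)
    _ = 2 * ‖p‖ := mul_comm _ _

end XPE
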