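import Pool.Agent.helper74.XP.SpecP

/-!
# xp: LBU: a lower bound for the multipliers of `z ^ n + c` if their derivatives are controlled
-/

set_option autoImplicit false

open Complex Metric Set Filter Topology MeasureTheory MPS PPS Pool.Agent.helper16.Multibrot

noncomputable section

namespace XPP

theorem LBU_fd (n : ℕ) (c z : ℂ) :
    PPS.fd (Polynomial.X ^ n + Polynomial.C c) z = MPS.fd n z := by
  simp [PPS.fd, MPS.fd, Polynomial.derivative_X_pow]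

theorem LBU_fdd (n : ℕ) (hn : 2 ≤ n) (c z : ℂ) :
    PPS.fdd (Polynomial.X ^ n + Polynomial.C c) z = MPS.fdd n z := by
  have h1 : n - 1 - 1 = n - 2 := by omega
  have h2 : ((n - 1 : ℕ) : ℂ) = (n : ℂ) - 1 := by
    rw [Nat.cast_sub (by omega)]; simp
  simp [PPS.fdd, MPS.fdd, h1, h2, Polynomial.derivative_X_pow, mul_assoc]

/-- translation from `PPS` to `MPS`. -/
theorem LBU_tr (n : ℕ) (hn : 2 ≤ n) (c : ℂ) (O : CY (Polynomial.X ^ n + Polynomial.C c)) :
    MPS.IsCyc n c O.b ∧ PPS.rho (Polynomial.X ^ n + Polynomial.C c) O.b = MPS.rho n O.b ∧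
    ∀ i, O.g (i + 1) = O.g i / MPS.fd n (O.b i) - MPS.fdd n (O.b i) / MPS.fd n (O.b i) ^ 2 := by
  refine ⟨⟨O.cyc.inj, ?_, ?_⟩, ?_, ?_⟩
  · intro i
    have h := O.cyc.step i
    simpa using h
  · intro i h0
    have h := O.cyc.ne0 i
    apply h
    rw [LBU_fd, h0, MPS.fd, zero_pow (by omega), mul_zero]
  · unfold PPS.rho MPS.rho
    exact Finset.prod_congr rfl fun i _ => LBU_fd n c _
  · intro i
    have h := O.ex i
    rw [LBU_fd, LBU_fdd n hn] at h
    exact h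

theorem LBU (hV : V3W.THV_stmt) (hL : V3W.LGN_stmt) (hB : MQ.THB_stmt) : LBU_stmt := by
  intro n K hn hK
  obtain ⟨ε₁, h₁, H₁⟩ := hV n (K + 1) hn (by linarith)
  have he : 0 < min ε₁ 1 := lt_min h₁ one_pos
  obtain ⟨ε₂, h₂, H₂⟩ := hB n (min ε₁ 1 / 2) hn (by linarith)
  refine ⟨min (min ε₁ 1 / 4) (ε₂ / (1 + K)), lt_min (by linarith) (div_pos h₂ (by linarith)), ?_⟩
  intro c O hc hk hg
  by_contra hlt
  push Not at hlt
  obtain ⟨hcyc, hrho, hex⟩ := LBU_tr n hn c O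
  have hrep : 1 < ‖MPS.rho n O.b‖ := by
    rw [← hrho]; exact O.rep
  have hLeq : O.L = Real.log ‖MPS.rho n O.b‖ := by
    unfold CY.L; rw [hrho]
  obtain ⟨-, hL2, hL3⟩ := hL
  obtain ⟨hLpos, hLle⟩ := hL2 _ hrep
  rw [← hLeq] at hLpos hLle
  have hlt1 : O.L < min ε₁ 1 / 4 := lt_of_lt_of_le hlt (min_le_left _ _)
  have hlt2 : O.L < ε₂ / (1 + K) := lt_of_lt_of_le hlt (min_le_right _ _)
  have hm1 : min ε₁ 1 ≤ ε₁ := min_le_left _ _
  have hm2 : min ε₁ 1 ≤ 1 := min_le_right _ _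
  by_cases hcase : ‖MPS.rho n O.b - 1‖ ≤ ε₁
  · have h := H₁ O.k c O.b O.g hk hc hcyc hrep hcase hex
    have hKL : K * O.L ≤ K * ‖MPS.rho n O.b - 1‖ := mul_le_mul_of_nonneg_left hLle hK.le
    nlinarith
  · push Not at hcase
    have h3 := hL3 _ hrep (by rw [← hLeq]; linarith)
    rw [← hLeq] at h3
    have h4 := H₂ O.k c O.b O.g hk hc hcyc hrep (by linarith) hex
    rw [← hLeq] at h4
    rw [lt_div_iff₀ (by linarith)] at hlt2
    nlinarith

end XPP
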